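import Mathlib

set_option autoImplicit false

namespace Pool.Agent.H32.TM

open Finset

/-- the number of partitions of `N` -/
def pc (N : ℕ) : ℕ := Fintype.card (Nat.Partition N)

/-- add one part -/
def addPart {N : ℕ} (i : ℕ) (hi : 0 < i) (p : Nat.Partition N) : Nat.Partition (N + i) where
  parts := i ::ₘ p.parts
  parts_pos := by
    intro j hj
    rcases Multiset.mem_cons.1 hj with h | h
    · rw [h]; exact hi
    · exact p.parts_pos h
  parts_sum := by
    rw [Multiset.sum_cons, p.parts_sum, add_comm]

/-- remove one part -/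
def erasePart {N : ℕ} (i : ℕ) (p : Nat.Partition N) (h : i ∈ p.parts) :
    Nat.Partition (N - i) where
  parts := p.parts.erase i
  parts_pos := fun hj => p.parts_pos (Multiset.mem_of_mem_erase hj)
  parts_sum := by
    have h1 : i + (p.parts.erase i).sum = N := by
      rw [← Multiset.sum_cons, Multiset.cons_erase h, p.parts_sum]
    omega

theorem pc_le_succ (N : ℕ) : pc N ≤ pc (N + 1) := by
  refine Fintype.card_le_of_injective (addPart 1 one_pos) ?_
  intro p q h
  have h1 : (addPart 1 one_pos p).parts = (addPart 1 one_pos q).parts := by rw [h]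
  have h2 : p.parts = q.parts := by simpa [addPart] using h1
  exact Nat.Partition.ext h2

theorem pc_mono {M N : ℕ} (h : M ≤ N) : pc M ≤ pc N := monotone_nat_of_le_succ pc_le_succ h

theorem pc_pos (N : ℕ) : 0 < pc N := by
  have h0 : 0 < pc 0 := Fintype.card_pos
  exact lt_of_lt_of_le h0 (pc_mono (Nat.zero_le N))

/-- partitions with a given part are as many as partitions of the rest -/
theorem pc_sub_le (N i : ℕ) (hi : 0 < i) (hN : i ≤ N) :
    pc (N - i) ≤ (univ.filter fun p : Nat.Partition N => i ∈ p.parts).card := by
  classical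
  have e : N - i + i = N := Nat.sub_add_cancel hN
  rw [pc, ← Finset.card_univ]
  refine Finset.card_le_card_of_injOn
    (fun p => e ▸ (addPart i hi p)) ?_ ?_
  · intro p _
    have : ∀ (n : ℕ) (h : N - i + i = n), i ∈ (h ▸ (addPart i hi p) : Nat.Partition n).parts := by
      intro n h
      subst h
      simp [addPart]
    simpa using this N e
  · intro p _ q _ h
    have key : ∀ (n : ℕ) (h : N - i + i = n),
        (h ▸ (addPart i hi p) : Nat.Partition n) = h ▸ (addPart i hi q) → p = q := by
      intro n h
      subst h
      intro h'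
      have h1 : (addPart i hi p).parts = (addPart i hi q).parts := by
        have : addPart i hi p = addPart i hi q := h'
        rw [this]
      have h2 : p.parts = q.parts := by simpa [addPart] using h1
      exact Nat.Partition.ext h2
    exact key N e h

theorem card_mem_le (N i : ℕ) :
    (univ.filter fun p : Nat.Partition N => i ∈ p.parts).card ≤ pc (N - i) := by
  classical
  rw [pc, ← Finset.card_univ]
  refine Finset.card_le_card_of_injOn
    (fun p => if h : i ∈ p.parts then erasePart i p h else
      { parts := Multiset.replicate (N - i) 1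
        parts_pos := by
          intro j hj
          rw [Multiset.eq_of_mem_replicate hj]; exact one_pos
        parts_sum := by simp }) (fun _ _ => by simp) ?_
  intro p hp q hq h
  have hp' : i ∈ p.parts := by simpa using hp
  have hq' : i ∈ q.parts := by simpa using hq
  simp only [hp', hq', dif_pos] at h
  have h1 : p.parts.erase i = q.parts.erase i := by
    have := congrArg Nat.Partition.parts h
    simpa [erasePart] using this
  have h2 : p.parts = q.parts := by
    rw [← Multiset.cons_erase hp', ← Multiset.cons_erase hq', h1]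
  exact Nat.Partition.ext h2

theorem sum_mul_le (N J : ℕ) (hJ : J ≤ N) :
    ∑ i ∈ Icc 1 J, i * pc (N - i) ≤ N * pc N := by
  classical
  calc ∑ i ∈ Icc 1 J, i * pc (N - i)
      ≤ ∑ i ∈ Icc 1 J, i * (univ.filter fun p : Nat.Partition N => i ∈ p.parts).card := by
        refine Finset.sum_le_sum fun i hi => ?_
        rw [mem_Icc] at hi
        exact Nat.mul_le_mul_left _ (pc_sub_le N i (by omega) (by omega))
    _ = ∑ i ∈ Icc 1 J, ∑ p : Nat.Partition N, if i ∈ p.parts then i else 0 := by
        refine Finset.sum_congr rfl fun i _ => ?_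
        rw [← Finset.sum_filter, Finset.sum_const, smul_eq_mul, mul_comm]
    _ = ∑ p : Nat.Partition N, ∑ i ∈ Icc 1 J, if i ∈ p.parts then i else 0 := Finset.sum_comm
    _ ≤ ∑ _p : Nat.Partition N, N := by
        refine Finset.sum_le_sum fun p _ => ?_
        rw [← Finset.sum_filter]
        calc ∑ i ∈ (Icc 1 J).filter (fun i => i ∈ p.parts), i
            ≤ ∑ i ∈ p.parts.toFinset, i := by
              refine Finset.sum_le_sum_of_subset ?_
              intro i hi
              rw [mem_filter] at hi
              exact Multiset.mem_toFinset.2 hi.2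
          _ ≤ ∑ i ∈ p.parts.toFinset, p.parts.count i • i := by
              refine Finset.sum_le_sum fun i hi => ?_
              have : 1 ≤ p.parts.count i :=
                Multiset.one_le_count_iff_mem.2 (Multiset.mem_toFinset.1 hi)
              rw [smul_eq_mul]
              exact Nat.le_mul_of_pos_left i this
          _ = p.parts.sum := (Finset.sum_multiset_count p.parts).symm
          _ = N := p.parts_sum
    _ = N * pc N := by
        rw [Finset.sum_const, Finset.card_univ, smul_eq_mul, mul_comm]; rfl

theorem growth_sum (N J : ℕ) (hJ : J ≤ N) :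
    J * (J + 1) * pc (N - J) ≤ 2 * N * pc N := by
  have h := sum_mul_le N J hJ
  have h2 : (∑ i ∈ Icc 1 J, i) * pc (N - J) ≤ ∑ i ∈ Icc 1 J, i * pc (N - i) := by
    rw [Finset.sum_mul]
    refine Finset.sum_le_sum fun i hi => ?_
    rw [mem_Icc] at hi
    exact Nat.mul_le_mul_left _ (pc_mono (by omega))
  have h3 : (∑ i ∈ Icc 1 J, i) * 2 = J * (J + 1) := by
    have hh : ∀ J : ℕ, (∑ i ∈ Icc 1 J, i) * 2 = J * (J + 1) := by
      intro J
      induction J with
      | zero => simp
      | succ J ih =>
        rw [Finset.sum_Icc_succ_top (by omega), add_mul, ih]; ring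
    exact hh J
  calc J * (J + 1) * pc (N - J) = 2 * ((∑ i ∈ Icc 1 J, i) * pc (N - J)) := by
          rw [← h3]; ring
      _ ≤ 2 * (N * pc N) := by
          exact Nat.mul_le_mul_left _ (h2.trans h)
      _ = 2 * N * pc N := by ring

theorem growth_one (N J : ℕ) (h1 : 1 ≤ J) (hJ : J ≤ N) (h4 : 4 * N ≤ J * (J + 1)) :
    2 * pc (N - J) ≤ pc N := by
  have h5 := growth_sum N J hJ
  have h6 : 4 * N * pc (N - J) ≤ 2 * N * pc N :=
    (Nat.mul_le_mul_right _ h4).trans h5
  have hN : 0 < 2 * N := by omega
  have h7 : 2 * N * (2 * pc (N - J)) ≤ 2 * N * pc N := by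
    calc 2 * N * (2 * pc (N - J)) = 4 * N * pc (N - J) := by ring
      _ ≤ _ := h6
  exact Nat.le_of_mul_le_mul_left h7 hN

/-- F3 -/
theorem growth (N J j : ℕ) (h1 : 1 ≤ J) (h4 : 4 * N ≤ J * (J + 1)) (hj : j * J ≤ N) :
    2 ^ j * pc (N - j * J) ≤ pc N := by
  induction j with
  | zero => simp
  | succ j ih =>
    have hj' : j * J ≤ N := by nlinarith
    have hs : (j + 1) * J = j * J + J := by ring
    have h2 := growth_one (N - j * J) J h1 (by omega) (by omega)
    have h3 : N - (j + 1) * J = N - j * J - J := by omega
    calc 2 ^ (j + 1) * pc (N - (j + 1) * J) = 2 ^ j * (2 * pc (N - j * J - J)) := by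
          rw [h3, pow_succ]; ring
      _ ≤ 2 ^ j * pc (N - j * J) := Nat.mul_le_mul_left _ h2
      _ ≤ pc N := ih hj'

end Pool.Agent.H32.TM
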